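import Pool.Agent.Helper75.PX.Stmts

set_option autoImplicit false

universe u

namespace Pool.Agent.Helper98.PX

open Pool.Agent.Helper75.PX

lemma NZ_aux {K A : Type u} [Field K] [Ring A] [Algebra K A] [Nontrivial A]
    (x y β : A) (p b : K) (h2 : (2 : K) ≠ 0) (hb0 : b ≠ 0) (hux : IsUnit x) (huy : IsUnit y)
    (hx : x * x = algebraMap K A p + β) (hb : β * β = algebraMap K A b)
    (hy : y * β = -(β * y)) : p ^ 2 - b ≠ 0 := by
  intro h
  have hpb : p ^ 2 = b := sub_eq_zero.1 h
  have h1 : (algebraMap K A p + β) * (algebraMap K A p - β) = 0 := by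
    have hc : algebraMap K A p * β = β * algebraMap K A p := Algebra.commutes p β
    have h3 : (algebraMap K A p + β) * (algebraMap K A p - β) =
        algebraMap K A p * algebraMap K A p - β * β := by
      rw [mul_sub, add_mul, add_mul, hc]
      abel
    rw [h3, hb, ← map_mul, ← map_sub, ← hpb, pow_two, sub_self, map_zero]
  have hxx : IsUnit (algebraMap K A p + β) := by
    rw [← hx]
    exact hux.mul hux
  have h4 : algebraMap K A p - β = 0 := (hxx.mul_right_eq_zero).1 h1
  have h5 : β = algebraMap K A p := (sub_eq_zero.1 h4).symm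
  rw [h5, ← Algebra.commutes p y] at hy
  have h6 : algebraMap K A (2 * p) * y = 0 := by
    rw [map_mul, map_ofNat, mul_assoc, two_mul]
    exact eq_neg_iff_add_eq_zero.1 hy
  have h7 : algebraMap K A (2 * p) = 0 := (huy.mul_left_eq_zero).1 h6
  have h8 : 2 * p = 0 := (algebraMap K A).injective (by rw [h7, map_zero])
  have h9 : p = 0 := (mul_eq_zero.1 h8).resolve_left h2
  apply hb0
  rw [← hpb, h9]
  ring

theorem st_NZ : ST_NZ.{u} := by
  intro K A _ _ _ _ α β z w a b p r v h2 h
  exact ⟨NZ_aux z w β p b h2 h.b0 h.uz h.uw h.hzz h.hbb h.hwb,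
    NZ_aux w z α r a h2 h.a0 h.uw h.uz h.hww h.haa h.hza⟩

end Pool.Agent.Helper98.PX
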